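import Pool.Agent.Lib.MP_6bc78b_nt.MS.QZ.Iface2
import Pool.Agent.Lib.MP_6bc78b_nt.MS.QZ.H79.Nra

/-! Project MS, Part QZ, second file: norms for `k = 0`. -/

set_option autoImplicit false

open Complex Filter Topology MeasureTheory ArithmeticFunction

namespace Pool.Agent.Lib.MP_6bc78b_nt.MS.QZ.H9

open Pool.Agent.Lib.MP_6bc78b_nt.MS Pool.Agent.Lib.MP_6bc78b_nt.MS.P1
open Pool.Agent.Lib.MP_6bc78b_nt.MS.QZ
open Pool.Agent.Lib.MP_6bc78b_nt.MS.QZ.H79 (hh_cont one_le_hh rs_nonneg)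

/-- The norm for one frequency, `k = 0`, `r = 0`. -/
theorem freq0 (hexp : ExpStatement) (hfzn : FznStatement) (hbiu : BiuStatement)
    (hbls : BlsStatement) :
    ∃ C T0 : ℝ, 0 < C ∧ 3 < T0 ∧ ∀ T : ℝ, T0 ≤ T → ∀ j : ℕ, 1 ≤ j →
      j ≤ JJ T → ∃ Y : ℝ, 1 ≤ Y ∧ Y ≤ Real.log T ∧ ∀ τ : ℝ,
        NN (muz (prs 1 T) (((1 / Real.log T : ℝ) : ℂ) + τ * I) * toC (gA 1 T j 0)) ≤
        ENNReal.ofReal (C * (1 / dl T j) ^ 2 * hh Y 1 τ ^ 2) := by
  obtain ⟨CE, hCE, hexp⟩ := hexp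
  obtain ⟨CF, TF, hCF, hTF, hfzn⟩ := hfzn
  obtain ⟨TB, hTB, hbiu⟩ := hbiu
  obtain ⟨CB, TS, hCB, hTS, hbls⟩ := hbls
  refine ⟨CF * CE * Real.exp 4, max TF (max TB TS), by positivity,
    lt_of_lt_of_le hTF (le_max_left _ _), ?_⟩
  intro T hT j hj1 hj
  have h1 : TF ≤ T := le_trans (le_max_left _ _) hT
  have hT2 := le_trans (le_max_right _ _) hT
  have h2 : TB ≤ T := le_trans (le_max_left _ _) hT2
  have h3 : TS ≤ T := le_trans (le_max_right _ _) hT2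
  have hT3' : 3 < T := lt_of_lt_of_le hTF h1
  have hL1 : 1 < Real.log T := by
    rw [Real.lt_log_iff_exp_lt (by linarith)]
    have := Real.exp_one_lt_d9
    linarith
  have hL0 : 0 < Real.log T := by linarith
  obtain ⟨hb1, hb2, hb3, hb4⟩ := hbiu T h2
  obtain ⟨i, rfl⟩ : ∃ i, j = i + 1 := ⟨j - 1, by omega⟩
  have hi : i ≤ JJ T := by omega
  obtain ⟨hy0, hy1, hy2, -, -⟩ := hb4 i hi
  set y := yy T i with hy
  have hy3 : 3 ≤ y := le_trans hy0 hy1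
  have hY1 : 1 < Real.log y := by
    rw [Real.lt_log_iff_exp_lt (by linarith)]
    have := Real.exp_one_lt_d9
    linarith
  have hYL : Real.log y ≤ Real.log T := Real.log_le_log (by linarith) hy2
  refine ⟨Real.log y, hY1.le, hYL, fun τ => ?_⟩
  have hzre : (((1 / Real.log T : ℝ) : ℂ) + τ * I).re = 1 / Real.log T := by simp
  have hzim : (((1 / Real.log T : ℝ) : ℂ) + τ * I).im = τ := by simp
  have hz0 : 0 ≤ (((1 / Real.log T : ℝ) : ℂ) + τ * I).re := by rw [hzre]; positivity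
  refine le_trans (hfzn T h1 (i + 1) 0 1 _ hj zero_le_one le_rfl hz0) ?_
  apply ENNReal.ofReal_le_ofReal
  have he := hexp y 1 (((1 / Real.log T : ℝ) : ℂ) + τ * I) hy3 zero_le_one le_rfl hz0 (by
      rw [hzre]
      exact one_div_le_one_div_of_le (by linarith) hYL)
  rw [hzim] at he
  have hsum : ∑ i' ∈ Finset.range (i + 1), ∑ p ∈ SS T i',
      ‖((1 : ℝ) : ℂ) - (p : ℂ) ^ (-(((1 / Real.log T : ℝ) : ℂ) + τ * I))‖ ^ 2 / (p : ℝ) =
      ∑ p ∈ prs 1 y,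
      ‖((1 : ℝ) : ℂ) - (p : ℂ) ^ (-(((1 / Real.log T : ℝ) : ℂ) + τ * I))‖ ^ 2 / (p : ℝ) := by
    rw [← hb3 i, Finset.sum_biUnion]
    intro a _ b _ hab
    exact hb2 a b hab
  rw [hsum]
  have hrs2 := (hbls T h3 (i + 1) hj).2.2.1 (by omega)
  have e0 : Real.log y ^ (((1 : ℝ) - 1) ^ 2) = 1 := by norm_num
  rw [e0, mul_one] at he
  set E := Real.exp (∑ p ∈ prs 1 y,
      ‖((1 : ℝ) : ℂ) - (p : ℂ) ^ (-(((1 / Real.log T : ℝ) : ℂ) + τ * I))‖ ^ 2 / (p : ℝ))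
    with hE
  have hE0 : 0 ≤ E := (Real.exp_pos _).le
  have hh0 : 0 ≤ hh (Real.log y) 1 τ :=
    le_trans zero_le_one (one_le_hh _ _ _ (by linarith) zero_le_one)
  have e1 : Real.exp (2 * rs (SS T (i + 1))) ≤ Real.exp 4 :=
    Real.exp_le_exp.mpr (by linarith)
  calc CF * E * (Real.exp (2 * rs (SS T (i + 1))) * (2 ^ 0 *
        ((Nat.factorial 0 : ℕ) : ℝ) * rs (SS T (i + 1)) ^ 0)) *
        (1 / dl T (i + 1)) ^ 2
      = CF * E * Real.exp (2 * rs (SS T (i + 1))) * (1 / dl T (i + 1)) ^ 2 := by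
        simp
    _ ≤ CF * (CE * hh (Real.log y) 1 τ ^ 2) * Real.exp 4 * (1 / dl T (i + 1)) ^ 2 := by
        gcongr
    _ = _ := by ring

/-- NA0. -/
theorem na0 (hexp : ExpStatement) (hfzn : FznStatement) (hkrn : KrnStatement)
    (hnr0 : Nr0Statement) (hhn0 : Hn0Statement) (hbiu : BiuStatement)
    (hbls : BlsStatement) (hscl : SclStatement) : Na0Statement := by
  intro th c1 c2 hth _
  obtain ⟨CA, TA, hCA, hTA, hfreq⟩ := freq0 hexp hfzn hbiu hbls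
  obtain ⟨CK, TK, hCK, hTK, hkrn⟩ := hkrn th c1 c2 hth
  obtain ⟨CH, hCH, hhn0⟩ := hhn0
  obtain ⟨TC, hTC, hscl⟩ := hscl
  refine ⟨CA * (CK * CH) ^ 2, max TA (max TK TC), by positivity,
    lt_of_lt_of_le hTA (le_max_left _ _), ?_⟩
  intro T hT j hj1 hj
  have h1 : TA ≤ T := le_trans (le_max_left _ _) hT
  have hT2 := le_trans (le_max_right _ _) hT
  have h2 : TK ≤ T := le_trans (le_max_left _ _) hT2
  have h3 : TC ≤ T := le_trans (le_max_right _ _) hT2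
  have hT3 : 3 < T := lt_of_lt_of_le hTA h1
  have hL1 : 1 < Real.log T := by
    rw [Real.lt_log_iff_exp_lt (by linarith)]
    have := Real.exp_one_lt_d9
    linarith
  have hL0 : 0 < Real.log T := by linarith
  have hL3 : 3 ≤ Real.log T := by
    have h6 : (10 : ℝ) ^ 7 ≤ Real.log (Real.log T) := (hscl T h3).1
    have h7 := Real.log_le_sub_one_of_pos hL0
    linarith
  obtain ⟨Y, hY1, hYL, hN⟩ := hfreq T h1 j hj1 hj
  obtain ⟨R, hRc, hRb, hRi⟩ := hkrn T h2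
  obtain ⟨hi1, hi2⟩ := hhn0 (Real.log T) Y hL3 hY1 hYL
  have hhc : Continuous (hh Y 1) := hh_cont Y 1 (by linarith)
  have hh1 : ∀ τ, 1 ≤ hh Y 1 τ := fun τ => one_le_hh _ _ _ (by linarith) zero_le_one
  have hpt : ∀ τ, ‖R τ‖ * hh Y 1 τ ≤
      CK * (hh Y 1 τ / (Real.log T * ((1 / Real.log T) ^ 2 + τ ^ 2))) := by
    intro τ
    have h6 := hRb τ
    have h7 : 0 ≤ hh Y 1 τ := le_trans zero_le_one (hh1 τ)
    calc ‖R τ‖ * hh Y 1 τ ≤
        CK / (Real.log T * ((1 / Real.log T) ^ 2 + τ ^ 2)) * hh Y 1 τ := by gcongr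
      _ = _ := by ring
  have hint : Integrable (fun τ : ℝ => ‖R τ‖ * hh Y 1 τ) := by
    refine Integrable.mono' (hi1.const_mul CK) ?_ ?_
    · exact (hRc.norm.mul hhc).aestronglyMeasurable
    · refine Filter.Eventually.of_forall (fun τ => ?_)
      have h7 : 0 ≤ hh Y 1 τ := le_trans zero_le_one (hh1 τ)
      rw [Real.norm_of_nonneg (by positivity)]
      exact hpt τ
  have hintle : ∫ τ : ℝ, ‖R τ‖ * hh Y 1 τ ≤ CK * (CH * ll T) := by
    calc ∫ τ : ℝ, ‖R τ‖ * hh Y 1 τ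
        ≤ ∫ τ : ℝ, CK * (hh Y 1 τ / (Real.log T * ((1 / Real.log T) ^ 2 + τ ^ 2))) :=
          integral_mono hint (hi1.const_mul CK) hpt
      _ = CK * ∫ τ : ℝ, hh Y 1 τ / (Real.log T * ((1 / Real.log T) ^ 2 + τ ^ 2)) :=
          integral_const_mul _ _
      _ ≤ CK * (CH * ll T) := by
          unfold ll
          gcongr
  have hB : 0 ≤ CA * (1 / dl T j) ^ 2 := by positivity
  have hfin := hnr0 R (hh Y 1) (1 / Real.log T)
    (CA * (1 / dl T j) ^ 2) (CK * (CH * ll T)) T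
    (bet th c1 c2 T) (gA 1 T j 0) (by linarith) hB hRc hhc hh1 hint hintle hRi hN
  refine le_trans hfin (le_of_eq ?_)
  ring

end Pool.Agent.Lib.MP_6bc78b_nt.MS.QZ.H9
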